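import Mathlib

set_option autoImplicit false

namespace Pool.Agent.TH136.AT

open MeasureTheory Real Set

/-- `cosh (b t) / cosh (a t)` is nondecreasing in `t ≥ 0` if `0 ≤ a ≤ b` -/
theorem cosh_ratio {a b t u : ℝ} (ha : 0 ≤ a) (hab : a ≤ b) (ht : 0 ≤ t) (htu : t ≤ u) :
    cosh (b * t) * cosh (a * u) ≤ cosh (b * u) * cosh (a * t) := by
  have p : ∀ x y : ℝ, cosh x * cosh y = (cosh (x + y) + cosh (x - y)) / 2 := by
    intro x y; rw [cosh_add, cosh_sub]; ring
  rw [p, p]
  have h1 : cosh (b * t + a * u) ≤ cosh (b * u + a * t) := by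
    have hb := ha.trans hab
    have hu := ht.trans htu
    rw [cosh_le_cosh, abs_of_nonneg (by positivity), abs_of_nonneg (by positivity)]
    nlinarith [mul_nonneg (sub_nonneg.2 hab) (sub_nonneg.2 htu)]
  have h2 : cosh (b * t - a * u) ≤ cosh (b * u - a * t) := by
    rw [cosh_le_cosh]
    have hu := ht.trans htu
    have hb := ha.trans hab
    have : a * t ≤ b * u := mul_le_mul hab htu ht hb
    rw [abs_of_nonneg (sub_nonneg.2 this), abs_le]
    constructor
    · nlinarith [mul_nonneg (sub_nonneg.2 hab) hu, mul_nonneg (sub_nonneg.2 hab) ht]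
    · nlinarith [mul_nonneg hb (sub_nonneg.2 htu), mul_nonneg ha (sub_nonneg.2 htu)]
  linarith

theorem hasDerivAt_th (x : ℝ) : HasDerivAt (fun x => sinh x / cosh x) (1 / cosh x ^ 2) x := by
  have := (hasDerivAt_sinh x).div (hasDerivAt_cosh x) (cosh_pos x).ne'
  have e : (cosh x * cosh x - sinh x * sinh x) / cosh x ^ 2 = 1 / cosh x ^ 2 := by
    rw [← sq, ← sq, cosh_sq_sub_sinh_sq]
  rwa [e] at this

theorem tanh_mono : Monotone (fun x : ℝ => sinh x / cosh x) := by
  apply monotone_of_deriv_nonneg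
  · exact fun x => (hasDerivAt_th x).differentiableAt
  · intro x
    rw [(hasDerivAt_th x).deriv]
    positivity

/-- the basic inequality, `l ^ 2 ≥ 2` -/
theorem th_ineq1 {l c x : ℝ} (hl0 : 0 ≤ l) (hl : 2 ≤ l ^ 2) (hc : l ^ 2 - 2 ≤ c) (hx : 0 ≤ x) :
    l * (sinh (l * x) / cosh (l * x)) ≤ c * x + 2 * (sinh x / cosh x) := by
  have hl1 : 1 ≤ l := by nlinarith
  set m : ℝ → ℝ := fun x => c * x + 2 * (sinh x / cosh x) - l * (sinh (l * x) / cosh (l * x))
    with hm
  have hd : ∀ x, HasDerivAt m (c + 2 * (1 / cosh x ^ 2) - l * (1 / cosh (l * x) ^ 2 * l)) x := by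
    intro x
    have h1 : HasDerivAt (fun x => l * x) l x := by
      simpa using (hasDerivAt_id x).const_mul l
    have h2 := (hasDerivAt_th (l * x)).comp x h1
    have h3 : HasDerivAt (fun x => c * x) c x := by
      simpa using (hasDerivAt_id x).const_mul c
    exact (h3.add ((hasDerivAt_th x).const_mul 2)).sub (h2.const_mul l)
  have hmono : MonotoneOn m (Ici 0) := by
    apply monotoneOn_of_deriv_nonneg (convex_Ici 0)
    · exact fun x _ => (hd x).continuousAt.continuousWithinAt
    · exact fun x _ => (hd x).differentiableAt.differentiableWithinAt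
    · intro x hx
      rw [interior_Ici] at hx
      rw [(hd x).deriv]
      have hx0 : (0:ℝ) < x := hx
      have e1 : 1 / cosh x ^ 2 = 1 - (sinh x / cosh x) ^ 2 := by
        have := cosh_pos x
        field_simp
        have := cosh_sq_sub_sinh_sq x
        linarith
      have e2 : 1 / cosh (l * x) ^ 2 = 1 - (sinh (l * x) / cosh (l * x)) ^ 2 := by
        have := cosh_pos (l * x)
        field_simp
        have := cosh_sq_sub_sinh_sq (l * x)
        linarith
      rw [e1, e2]
      have h0 : 0 ≤ sinh x / cosh x := by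
        have := tanh_mono hx0.le
        simpa using this
      have h1 : sinh x / cosh x ≤ sinh (l * x) / cosh (l * x) :=
        tanh_mono (by nlinarith)
      set p := sinh x / cosh x
      set q := sinh (l * x) / cosh (l * x)
      have h2 : p ^ 2 ≤ q ^ 2 := pow_le_pow_left₀ h0 h1 2
      have h3 : 2 * p ^ 2 ≤ l ^ 2 * q ^ 2 := by
        have : 0 ≤ q ^ 2 := sq_nonneg q
        nlinarith
      nlinarith
  have := hmono (self_mem_Ici) (show x ∈ Ici 0 from hx) hx
  simp only [hm] at this
  simp at this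
  linarith

/-- the basic inequality -/
theorem th_ineq {l c x : ℝ} (hl0 : 0 ≤ l) (hc0 : 0 ≤ c) (hc : l ^ 2 - 2 ≤ c) (hx : 0 ≤ x) :
    l * (sinh (l * x) / cosh (l * x)) ≤ c * x + 2 * (sinh x / cosh x) := by
  rcases le_total 2 (l ^ 2) with h | h
  · exact th_ineq1 hl0 h hc hx
  · have h2 : (0:ℝ) ≤ √2 := sqrt_nonneg 2
    have hs : (√2 : ℝ) ^ 2 = 2 := by norm_num
    have hls : l ≤ √2 := by
      apply Real.le_sqrt_of_sq_le h
    have h1 := th_ineq1 (l := √2) (c := 0) (x := x) h2 (by rw [hs]) (by rw [hs]; norm_num) hx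
    have h3 : sinh (l * x) / cosh (l * x) ≤ sinh (√2 * x) / cosh (√2 * x) :=
      tanh_mono (by nlinarith)
    have h4 : 0 ≤ sinh (√2 * x) / cosh (√2 * x) := by
      have := tanh_mono (show 0 ≤ √2 * x by positivity)
      simpa using this
    have h5 : l * (sinh (l * x) / cosh (l * x)) ≤ √2 * (sinh (√2 * x) / cosh (√2 * x)) := by
      calc l * (sinh (l * x) / cosh (l * x)) ≤ l * (sinh (√2 * x) / cosh (√2 * x)) :=
            mul_le_mul_of_nonneg_left h3 hl0
        _ ≤ √2 * (sinh (√2 * x) / cosh (√2 * x)) := mul_le_mul_of_nonneg_right hls h4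
    have h6 : 0 ≤ c * x := by positivity
    linarith

/-- the profile of the density -/
noncomputable def psi (s l x : ℝ) : ℝ := exp (-x ^ 2 / (2 * s)) * cosh (l * x) / cosh x ^ 2

theorem psi_pos (s l x : ℝ) : 0 < psi s l x := by
  unfold psi
  have := cosh_pos (l * x)
  have := cosh_pos x
  positivity

theorem psi_neg (s l x : ℝ) : psi s l (-x) = psi s l x := by
  unfold psi
  have : l * -x = -(l * x) := by ring
  rw [this, cosh_neg, cosh_neg, neg_sq]

theorem psi_antitone {s l : ℝ} (hs : 0 < s) (hl0 : 0 ≤ l) (hl : l ^ 2 ≤ 2 + 1 / s) :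
    AntitoneOn (psi s l) (Ici 0) := by
  have hd : ∀ x, HasDerivAt (psi s l)
      (psi s l x * (l * (sinh (l * x) / cosh (l * x)) - (1 / s * x + 2 * (sinh x / cosh x)))) x := by
    intro x
    have h1 : HasDerivAt (fun x : ℝ => -x ^ 2 / (2 * s)) (-x / s) x := by
      have := ((hasDerivAt_pow 2 x).neg).div_const (2 * s)
      have e : -((2:ℕ) * x ^ (2 - 1)) / (2 * s) = -x / s := by
        field_simp
        norm_num
      rwa [e] at this
    have h2 : HasDerivAt (fun x : ℝ => cosh (l * x)) (sinh (l * x) * l) x := by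
      have : HasDerivAt (fun x => l * x) l x := by
        simpa using (hasDerivAt_id x).const_mul l
      exact (hasDerivAt_cosh (l * x)).comp x this
    have h3 : HasDerivAt (fun x : ℝ => cosh x ^ 2) (2 * cosh x * sinh x) x := by
      have := (hasDerivAt_cosh x).fun_pow 2
      simpa using this
    have h4 := ((h1.exp).mul h2).div h3 (by have := cosh_pos x; positivity)
    have e : ((exp (-x ^ 2 / (2 * s)) * (-x / s) * cosh (l * x) +
        exp (-x ^ 2 / (2 * s)) * (sinh (l * x) * l)) * cosh x ^ 2 -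
        exp (-x ^ 2 / (2 * s)) * cosh (l * x) * (2 * cosh x * sinh x)) / (cosh x ^ 2) ^ 2 =
        psi s l x * (l * (sinh (l * x) / cosh (l * x)) - (1 / s * x + 2 * (sinh x / cosh x))) := by
      unfold psi
      have := cosh_pos (l * x)
      have := cosh_pos x
      field_simp
      ring
    rw [← e]
    exact h4
  apply antitoneOn_of_deriv_nonpos (convex_Ici 0)
  · exact fun x _ => (hd x).continuousAt.continuousWithinAt
  · exact fun x _ => (hd x).differentiableAt.differentiableWithinAt
  · intro x hx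
    rw [interior_Ici] at hx
    rw [(hd x).deriv]
    have hx0 : (0:ℝ) < x := hx
    have := th_ineq (l := l) (c := 1 / s) (x := x) hl0 (by positivity) (by linarith) hx0.le
    have := (psi_pos s l x).le
    exact mul_nonpos_of_nonneg_of_nonpos this (by linarith)

theorem psi_abs (s l x : ℝ) : psi s l |x| = psi s l x := by
  rcases abs_choice x with h | h
  · rw [h]
  · rw [h, psi_neg]

end Pool.Agent.TH136.AT
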