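import Pool.Agent.TH136.AT.Cheb
import Pool.Agent.TH136.AT.Shape

set_option autoImplicit false

namespace Pool.Agent.TH136.AT

open MeasureTheory Real Set

theorem int_exp {v : ℝ} (hv : 0 < v) (c : ℝ) :
    Integrable (fun x : ℝ => exp (c * x - x ^ 2 / (2 * v))) := by
  have h := (integrable_exp_neg_mul_sq (b := 1 / (2 * v)) (by positivity)).comp_sub_right (v * c)
  have e : (fun x : ℝ => exp (c * x - x ^ 2 / (2 * v))) =
      fun x => exp (v * c ^ 2 / 2) * exp (-(1 / (2 * v)) * (x - v * c) ^ 2) := by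
    funext x
    rw [← exp_add]
    congr 1
    field_simp
    ring
  rw [e]
  exact h.const_mul _

theorem int_cc {v : ℝ} (hv : 0 < v) (a b : ℝ) :
    Integrable (fun x : ℝ => cosh (a * x) * exp (-x ^ 2 / (2 * v)) * cosh (b * x)) := by
  have e : (fun x : ℝ => cosh (a * x) * exp (-x ^ 2 / (2 * v)) * cosh (b * x)) = fun x =>
      (exp ((a + b) * x - x ^ 2 / (2 * v)) + exp ((a - b) * x - x ^ 2 / (2 * v)) +
        exp ((b - a) * x - x ^ 2 / (2 * v)) + exp ((-a - b) * x - x ^ 2 / (2 * v))) / 4 := by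
    funext x
    have e1 : -x ^ 2 / (2 * v) = -(x ^ 2 / (2 * v)) := by ring
    have e2 : ∀ c : ℝ, exp (c * x - x ^ 2 / (2 * v)) = exp (c * x) * exp (-(x ^ 2 / (2 * v))) := by
      intro c; rw [← exp_add]; ring_nf
    rw [e2, e2, e2, e2, e1, cosh_eq, cosh_eq]
    have e3 : exp ((a + b) * x) = exp (a * x) * exp (b * x) := by rw [← exp_add]; ring_nf
    have e4 : exp ((a - b) * x) = exp (a * x) * exp (-(b * x)) := by rw [← exp_add]; ring_nf
    have e5 : exp ((b - a) * x) = exp (-(a * x)) * exp (b * x) := by rw [← exp_add]; ring_nf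
    have e6 : exp ((-a - b) * x) = exp (-(a * x)) * exp (-(b * x)) := by rw [← exp_add]; ring_nf
    rw [e3, e4, e5, e6]
    ring
  rw [e]
  exact ((((int_exp hv _).add (int_exp hv _)).add (int_exp hv _)).add (int_exp hv _)).div_const 4

theorem int_cE {v : ℝ} (hv : 0 < v) (w : ℝ) :
    Integrable (fun x : ℝ => cosh x * exp (-(w - x) ^ 2 / (2 * v))) := by
  have e : (fun x : ℝ => cosh x * exp (-(w - x) ^ 2 / (2 * v))) = fun x =>
      exp (-w ^ 2 / (2 * v)) * ((exp ((1 + w / v) * x - x ^ 2 / (2 * v)) +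
        exp ((-1 + w / v) * x - x ^ 2 / (2 * v))) / 2) := by
    funext x
    have e1 : exp (-(w - x) ^ 2 / (2 * v)) =
        exp (-w ^ 2 / (2 * v)) * exp (w / v * x - x ^ 2 / (2 * v)) := by
      rw [← exp_add]; congr 1; field_simp; ring
    have e2 : exp ((1 + w / v) * x - x ^ 2 / (2 * v)) =
        exp x * exp (w / v * x - x ^ 2 / (2 * v)) := by rw [← exp_add]; ring_nf
    have e3 : exp ((-1 + w / v) * x - x ^ 2 / (2 * v)) =
        exp (-x) * exp (w / v * x - x ^ 2 / (2 * v)) := by rw [← exp_add]; ring_nf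
    rw [e1, e2, e3, cosh_eq]
    ring
  rw [e]
  exact (((int_exp hv _).add (int_exp hv _)).div_const 2).const_mul _

/-- symmetrisation -/
theorem sym_int {v : ℝ} (hv : 0 < v) (w : ℝ) {f : ℝ → ℝ} (hf : ∀ x, f (-x) = f x)
    (hi : ∀ w, Integrable (fun x => f x * exp (-(w - x) ^ 2 / (2 * v)))) :
    ∫ x, f x * exp (-(w - x) ^ 2 / (2 * v)) =
      exp (-w ^ 2 / (2 * v)) * ∫ x, f x * exp (-x ^ 2 / (2 * v)) * cosh (w / v * x) := by
  have h1 : ∫ x, f x * exp (-(w - x) ^ 2 / (2 * v)) =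
      ∫ x, f x * exp (-(-w - x) ^ 2 / (2 * v)) := by
    rw [← integral_neg_eq_self (fun x => f x * exp (-(w - x) ^ 2 / (2 * v)))]
    congr 1
    funext x
    rw [hf]
    congr 3
    ring
  have h2 : (2:ℝ) * ∫ x, f x * exp (-(w - x) ^ 2 / (2 * v)) =
      ∫ x, (f x * exp (-(w - x) ^ 2 / (2 * v)) + f x * exp (-(-w - x) ^ 2 / (2 * v))) := by
    rw [integral_add (hi w) (hi (-w)), ← h1]
    ring
  have h3 : (∫ x, (f x * exp (-(w - x) ^ 2 / (2 * v)) + f x * exp (-(-w - x) ^ 2 / (2 * v)))) =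
      2 * (exp (-w ^ 2 / (2 * v)) * ∫ x, f x * exp (-x ^ 2 / (2 * v)) * cosh (w / v * x)) := by
    rw [← integral_const_mul, ← integral_const_mul]
    congr 1
    funext x
    have e1 : exp (-(w - x) ^ 2 / (2 * v)) =
        exp (-w ^ 2 / (2 * v)) * exp (-x ^ 2 / (2 * v)) * exp (w / v * x) := by
      rw [← exp_add, ← exp_add]; congr 1; field_simp; ring
    have e2 : exp (-(-w - x) ^ 2 / (2 * v)) =
        exp (-w ^ 2 / (2 * v)) * exp (-x ^ 2 / (2 * v)) * exp (-(w / v * x)) := by
      rw [← exp_add, ← exp_add]; congr 1; field_simp; ring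
    rw [e1, e2, cosh_eq]
    ring
  linarith

/-- mass of the Gaussian weight -/
noncomputable def MM (v : ℝ) : ℝ := ∫ x, exp (-x ^ 2 / (2 * v))

theorem int_M {v : ℝ} (hv : 0 < v) : Integrable (fun x : ℝ => exp (-x ^ 2 / (2 * v))) := by
  have := int_exp hv 0
  have e : (fun x : ℝ => exp (-x ^ 2 / (2 * v))) = fun x => exp (0 * x - x ^ 2 / (2 * v)) := by
    funext x; congr 1; ring
  rw [e]; exact this

theorem MM_pos {v : ℝ} (hv : 0 < v) : 0 < MM v := by
  unfold MM
  rw [integral_pos_iff_support_of_nonneg (fun x => (exp_pos _).le) (int_M hv)]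
  have : Function.support (fun x : ℝ => exp (-x ^ 2 / (2 * v))) = univ := by
    ext x; simp [(exp_pos _).ne']
  rw [this]
  simp

theorem gauss_shift (v c : ℝ) : ∫ x, exp (-(x - c) ^ 2 / (2 * v)) = MM v :=
  integral_sub_right_eq_self (fun x => exp (-x ^ 2 / (2 * v))) c

theorem int_shift {v : ℝ} (hv : 0 < v) (c : ℝ) :
    Integrable (fun x => exp (-(x - c) ^ 2 / (2 * v))) := (int_M hv).comp_sub_right c

theorem int_cosh_gauss {v : ℝ} (hv : 0 < v) (w : ℝ) :
    ∫ x, cosh x * exp (-(w - x) ^ 2 / (2 * v)) = exp (v / 2) * MM v * cosh w := by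
  have e : (fun x : ℝ => cosh x * exp (-(w - x) ^ 2 / (2 * v))) = fun x =>
      (exp (w + v / 2) * exp (-(x - (w + v)) ^ 2 / (2 * v)) +
        exp (-w + v / 2) * exp (-(x - (w - v)) ^ 2 / (2 * v))) / 2 := by
    funext x
    have e1 : exp (w + v / 2) * exp (-(x - (w + v)) ^ 2 / (2 * v)) =
        exp x * exp (-(w - x) ^ 2 / (2 * v)) := by
      rw [← exp_add, ← exp_add]; congr 1; field_simp; ring
    have e2 : exp (-w + v / 2) * exp (-(x - (w - v)) ^ 2 / (2 * v)) =
        exp (-x) * exp (-(w - x) ^ 2 / (2 * v)) := by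
      rw [← exp_add, ← exp_add]; congr 1; field_simp; ring
    rw [e1, e2, cosh_eq]
    ring
  rw [e, integral_div, integral_add ((int_shift hv _).const_mul _) ((int_shift hv _).const_mul _),
    integral_const_mul, integral_const_mul, gauss_shift, gauss_shift, cosh_eq, exp_add, exp_add]
  ring

/-- the weight -/
noncomputable def om (v x : ℝ) : ℝ := cosh x * exp (-x ^ 2 / (2 * v))

noncomputable def AA (v w : ℝ) : ℝ := ∫ x, om v x * cosh (w / v * x)

noncomputable def BB (s l v w : ℝ) : ℝ := ∫ x, om v x * psi s l x * cosh (w / v * x)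

theorem om_pos (v x : ℝ) : 0 < om v x := mul_pos (cosh_pos _) (exp_pos _)

theorem int_om {v : ℝ} (hv : 0 < v) (c : ℝ) : Integrable (fun x => om v x * cosh (c * x)) := by
  have := int_cc hv 1 c
  simpa [om] using this

theorem AA_eq {v : ℝ} (hv : 0 < v) (w : ℝ) :
    exp (-w ^ 2 / (2 * v)) * AA v w = exp (v / 2) * MM v * cosh w := by
  rw [← int_cosh_gauss hv w, sym_int hv w (fun x => cosh_neg x) (int_cE hv)]
  rfl

theorem AA_pos {v : ℝ} (hv : 0 < v) (w : ℝ) : 0 < AA v w := by
  have h := AA_eq hv w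
  have h1 : 0 < exp (v / 2) * MM v * cosh w :=
    mul_pos (mul_pos (exp_pos _) (MM_pos hv)) (cosh_pos _)
  rw [← h] at h1
  exact (mul_pos_iff_of_pos_left (exp_pos _)).1 h1

theorem psi_le_one {s l : ℝ} (hs : 0 < s) (hl0 : 0 ≤ l) (hl : l ^ 2 ≤ 2 + 1 / s) (x : ℝ) :
    psi s l x ≤ 1 := by
  have h := psi_antitone hs hl0 hl (Set.mem_Ici.2 (le_refl (0:ℝ)))
    (Set.mem_Ici.2 (abs_nonneg x)) (abs_nonneg x)
  rw [psi_abs] at h
  have : psi s l 0 = 1 := by simp [psi]
  linarith

theorem psi_cont (s l : ℝ) : Continuous (psi s l) := by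
  unfold psi
  apply Continuous.div
  · fun_prop
  · fun_prop
  · intro x
    have := cosh_pos x
    positivity

theorem int_ompsi {s l v : ℝ} (hs : 0 < s) (hl0 : 0 ≤ l) (hl : l ^ 2 ≤ 2 + 1 / s) (hv : 0 < v)
    (c : ℝ) : Integrable (fun x => om v x * psi s l x * cosh (c * x)) := by
  have h := (int_om hv c).bdd_mul (f := psi s l) (c := 1)
    (psi_cont s l).aestronglyMeasurable (Filter.Eventually.of_forall fun x => by
      rw [Real.norm_eq_abs, abs_of_pos (psi_pos s l x)]
      exact psi_le_one hs hl0 hl x)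
  refine h.congr (Filter.Eventually.of_forall fun x => ?_)
  simp only
  ring

/-- the ratio `B / A` is nonincreasing -/
theorem ratio {s l v w1 w2 : ℝ} (hs : 0 < s) (hl0 : 0 ≤ l) (hl : l ^ 2 ≤ 2 + 1 / s) (hv : 0 < v)
    (h1 : 0 ≤ w1) (h12 : w1 ≤ w2) : BB s l v w2 / AA v w2 ≤ BB s l v w1 / AA v w1 := by
  set W : ℝ → ℝ := fun x => om v x * cosh (w1 / v * x) with hW
  set g : ℝ → ℝ := fun x => cosh (w2 / v * x) / cosh (w1 / v * x) with hg
  have hc : ∀ x, cosh (w1 / v * x) ≠ 0 := fun x => (cosh_pos _).ne'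
  have eg : ∀ x, W x * g x = om v x * cosh (w2 / v * x) := by
    intro x
    simp only [hW, hg]
    have := hc x
    field_simp
  have efg : ∀ x, W x * psi s l x * g x = om v x * psi s l x * cosh (w2 / v * x) := by
    intro x
    have := eg x
    calc W x * psi s l x * g x = (W x * g x) * psi s l x := by ring
      _ = _ := by rw [this]; ring
  have ef : ∀ x, W x * psi s l x = om v x * psi s l x * cosh (w1 / v * x) := by
    intro x; simp only [hW]; ring
  have key := cheb_anti (w := W) (f := psi s l) (g := g)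
    (fun x => (mul_pos (om_pos v x) (cosh_pos _)).le) (int_om hv _)
    (by simp_rw [ef]; exact int_ompsi hs hl0 hl hv _)
    (by simp_rw [eg]; exact int_om hv _)
    (by simp_rw [efg]; exact int_ompsi hs hl0 hl hv _)
    (by
      have main : ∀ x y : ℝ, |x| ≤ |y| → (psi s l x - psi s l y) * (g x - g y) ≤ 0 := by
        intro x y hxy
        have p1 : psi s l y ≤ psi s l x := by
          rw [← psi_abs s l y, ← psi_abs s l x]
          exact psi_antitone hs hl0 hl (abs_nonneg x) (abs_nonneg y) hxy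
        have p2 : g x ≤ g y := by
          simp only [hg]
          have ea : ∀ c t : ℝ, 0 ≤ c → cosh (c * t) = cosh (c * |t|) := by
            intro c t hc0
            rw [← cosh_abs (c * t), abs_mul, abs_of_nonneg hc0]
          have hw1 : 0 ≤ w1 / v := by positivity
          have hw2 : 0 ≤ w2 / v := div_nonneg (h1.trans h12) hv.le
          rw [ea _ x hw2, ea _ x hw1, ea _ y hw2, ea _ y hw1, div_le_div_iff₀ (cosh_pos _) (cosh_pos _)]
          exact cosh_ratio hw1 (by gcongr) (abs_nonneg x) hxy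
        exact mul_nonpos_of_nonneg_of_nonpos (by linarith) (by linarith)
      intro x y
      rcases le_total |x| |y| with h | h
      · exact main x y h
      · have := main y x h
        nlinarith)
  simp_rw [efg, ef, eg] at key
  rw [div_le_div_iff₀ (AA_pos hv _) (AA_pos hv _)]
  exact key

end Pool.Agent.TH136.AT
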