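import Pool.Agent.TH198.AT.Stmts
import Pool.Agent.TH136.AT.Ratio

set_option autoImplicit false

namespace Pool.Agent.TH136.AT

open MeasureTheory Real Set Filter Topology Pool.TH198.AT

/-! ### the weight `sech²` -/

/-- `sech²` -/
noncomputable def qq (x : ℝ) : ℝ := 1 / cosh x ^ 2

theorem qq_pos (x : ℝ) : 0 < qq x := by
  unfold qq
  have := cosh_pos x
  positivity

theorem qq_cont : Continuous qq := by
  unfold qq
  apply Continuous.div
  · fun_prop
  · fun_prop
  · intro x
    have := cosh_pos x
    positivity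

theorem qq_le (x : ℝ) : qq x ≤ (1 + x ^ 2)⁻¹ := by
  unfold qq
  rw [one_div]
  apply inv_anti₀ (by positivity)
  have h1 : cosh x ^ 2 = 1 + sinh x ^ 2 := by
    have := cosh_sq_sub_sinh_sq x
    linarith
  rw [h1]
  have h2 : |x| ≤ |sinh x| := by
    rcases le_total 0 x with h | h
    · rw [abs_of_nonneg h, abs_of_nonneg (sinh_nonneg_iff.2 h)]
      exact self_le_sinh_iff.2 h
    · rw [abs_of_nonpos h, abs_of_nonpos (sinh_nonpos_iff.2 h), ← sinh_neg]
      exact self_le_sinh_iff.2 (by linarith)
  have := sq_le_sq.2 h2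
  linarith

theorem qq_le_one (x : ℝ) : qq x ≤ 1 := by
  refine (qq_le x).trans (inv_le_one_of_one_le₀ ?_)
  have := sq_nonneg x
  linarith

theorem qq_int : Integrable qq := by
  refine integrable_inv_one_add_sq.mono' qq_cont.aestronglyMeasurable
    (Eventually.of_forall fun x => ?_)
  rw [Real.norm_eq_abs, abs_of_pos (qq_pos x)]
  exact qq_le x

theorem qq_anti {x y : ℝ} (h : |x| ≤ |y|) : qq y ≤ qq x := by
  unfold qq
  have h1 := cosh_pos x
  have h2 := cosh_le_cosh.2 h
  gcongr

theorem int_qq : ∫ x, qq x * (3 * qq x - 2) = 0 := by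
  have hd : ∀ x, HasDerivAt (fun x => sinh x / cosh x * qq x) (qq x * (3 * qq x - 2)) x := by
    intro x
    have h0 : (fun x => sinh x / cosh x * qq x) =
        fun x => sinh x / cosh x - (sinh x / cosh x) ^ 3 := by
      funext x
      unfold qq
      have := cosh_pos x
      have h2 := cosh_sq_sub_sinh_sq x
      field_simp
      linear_combination (-sinh x) * h2
    rw [h0]
    have h1 := (hasDerivAt_th x).sub ((hasDerivAt_th x).fun_pow 3)
    have e : 1 / cosh x ^ 2 - (3:ℕ) * (sinh x / cosh x) ^ (3 - 1) * (1 / cosh x ^ 2) =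
        qq x * (3 * qq x - 2) := by
      unfold qq
      have := cosh_pos x
      have h2 := cosh_sq_sub_sinh_sq x
      rw [show ((3:ℕ):ℝ) = 3 by norm_num, show 3 - 1 = 2 by norm_num]
      field_simp
      linear_combination (3 : ℝ) * h2
    rwa [e] at h1
  have hI : Integrable (fun x => qq x * (3 * qq x - 2)) := by
    have := qq_int.bdd_mul (f := fun x => 3 * qq x - 2) (c := 5)
      ((continuous_const.mul qq_cont).sub continuous_const).aestronglyMeasurable
      (Eventually.of_forall fun x => by
        rw [Real.norm_eq_abs, abs_le]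
        have := qq_pos x
        have := qq_le_one x
        constructor <;> linarith)
    refine this.congr (Eventually.of_forall fun x => ?_)
    simp only
    ring
  have hlim : ∀ F : Filter ℝ, Tendsto (fun x : ℝ => (1 + x ^ 2)⁻¹) F (𝓝 0) →
      Tendsto (fun x => sinh x / cosh x * qq x) F (𝓝 0) := by
    intro F hF
    refine squeeze_zero_norm (fun x => ?_) hF
    rw [norm_mul, Real.norm_eq_abs, Real.norm_eq_abs, abs_of_pos (qq_pos x)]
    have h1 : |sinh x / cosh x| ≤ 1 := by
      rw [abs_div, abs_of_pos (cosh_pos x), div_le_one (cosh_pos x), abs_le]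
      have h2 := sinh_lt_cosh x
      have h3 := sinh_lt_cosh (-x)
      rw [sinh_neg, cosh_neg] at h3
      constructor <;> linarith
    calc |sinh x / cosh x| * qq x ≤ 1 * qq x := mul_le_mul_of_nonneg_right h1 (qq_pos x).le
      _ ≤ _ := by rw [one_mul]; exact qq_le x
  have t1 : Tendsto (fun x : ℝ => (1 + x ^ 2)⁻¹) atTop (𝓝 0) := by
    apply tendsto_inv_atTop_zero.comp
    exact tendsto_atTop_add_const_left _ _ (tendsto_pow_atTop (by norm_num))
  have t2 : Tendsto (fun x : ℝ => (1 + x ^ 2)⁻¹) atBot (𝓝 0) := by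
    have := t1.comp tendsto_neg_atBot_atTop
    refine this.congr (fun x => ?_)
    simp
  have := integral_of_hasDerivAt_of_tendsto hd hI (hlim _ t2) (hlim _ t1)
  rw [this]
  ring

/-! ### the ratio function -/

section
variable {s l v : ℝ} (hs : 0 < s) (hl0 : 0 ≤ l) (hl : l ^ 2 ≤ 2 + 1 / s) (hv : 0 < v)

noncomputable def Rn (s l v w : ℝ) : ℝ := BB s l v w / AA v w

theorem Rn_neg (s l v w : ℝ) : Rn s l v (-w) = Rn s l v w := by
  unfold Rn AA BB
  have : ∀ x : ℝ, cosh (-w / v * x) = cosh (w / v * x) := by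
    intro x
    rw [← cosh_neg]
    congr 1
    ring
  simp_rw [this]

theorem Rn_abs (s l v w : ℝ) : Rn s l v |w| = Rn s l v w := by
  rcases abs_choice w with h | h
  · rw [h]
  · rw [h, Rn_neg]

include hs hl0 hl hv

theorem Rn_anti {x y : ℝ} (h : |x| ≤ |y|) : Rn s l v y ≤ Rn s l v x := by
  rw [← Rn_abs s l v x, ← Rn_abs s l v y]
  exact ratio hs hl0 hl hv (abs_nonneg x) h

theorem Rn_meas : Measurable (Rn s l v) := by
  have h1 : Antitone (fun w : ℝ => Rn s l v (max w 0)) := by
    intro x y hxy
    apply Rn_anti hs hl0 hl hv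
    rw [abs_of_nonneg (le_max_right _ _), abs_of_nonneg (le_max_right _ _)]
    exact max_le_max_right 0 hxy
  have h2 : Rn s l v = fun w => (fun w : ℝ => Rn s l v (max w 0)) |w| := by
    funext w
    simp only
    rw [max_eq_left (abs_nonneg w), Rn_abs]
  rw [h2]
  exact h1.measurable.comp measurable_norm

theorem BB_nonneg (w : ℝ) : 0 ≤ BB s l v w := by
  unfold BB
  exact integral_nonneg fun x => mul_nonneg (mul_nonneg (om_pos v x).le (psi_pos s l x).le)
    (cosh_pos _).le

theorem Rn_nonneg (w : ℝ) : 0 ≤ Rn s l v w :=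
  div_nonneg (BB_nonneg hs hl0 hl hv w) (AA_pos hv w).le

theorem Rn_le_one (w : ℝ) : Rn s l v w ≤ 1 := by
  unfold Rn
  rw [div_le_one (AA_pos hv w)]
  unfold BB AA
  apply integral_mono (int_ompsi hs hl0 hl hv _) (int_om hv _)
  intro x
  simp only
  have h1 := psi_le_one hs hl0 hl x
  have h2 : 0 ≤ om v x * cosh (w / v * x) := mul_nonneg (om_pos v x).le (cosh_pos _).le
  nlinarith

/-- the key integral is nonnegative -/
theorem int_Rn : 0 ≤ ∫ x, qq x * Rn s l v x * (3 * qq x - 2) := by
  have hm := (Rn_meas hs hl0 hl hv)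
  have hb : ∀ x, ‖Rn s l v x‖ ≤ 1 := fun x => by
    rw [Real.norm_eq_abs, abs_of_nonneg (Rn_nonneg hs hl0 hl hv x)]
    exact Rn_le_one hs hl0 hl hv x
  have hg : ∀ x, ‖3 * qq x - 2‖ ≤ 5 := fun x => by
    rw [Real.norm_eq_abs, abs_le]
    have := qq_pos x
    have := qq_le_one x
    constructor <;> linarith
  have hgc : Continuous (fun x => 3 * qq x - 2) := (continuous_const.mul qq_cont).sub continuous_const
  have I1 : Integrable (fun x => qq x * Rn s l v x) := by
    have := qq_int.bdd_mul (f := Rn s l v) (c := 1) hm.aestronglyMeasurable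
      (Eventually.of_forall hb)
    refine this.congr (Eventually.of_forall fun x => ?_)
    simp only
    ring
  have I2 : Integrable (fun x => qq x * (3 * qq x - 2)) := by
    have := qq_int.bdd_mul (f := fun x => 3 * qq x - 2) (c := 5) hgc.aestronglyMeasurable
      (Eventually.of_forall hg)
    refine this.congr (Eventually.of_forall fun x => ?_)
    simp only
    ring
  have I3 : Integrable (fun x => qq x * Rn s l v x * (3 * qq x - 2)) := by
    have := I1.bdd_mul (f := fun x => 3 * qq x - 2) (c := 5) hgc.aestronglyMeasurable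
      (Eventually.of_forall hg)
    refine this.congr (Eventually.of_forall fun x => ?_)
    simp only
    ring
  have key := cheb (w := qq) (f := Rn s l v) (g := fun x => 3 * qq x - 2)
    (fun x => (qq_pos x).le) qq_int I1 I2 I3 (by
      have main : ∀ x y : ℝ, |x| ≤ |y| →
          0 ≤ (Rn s l v x - Rn s l v y) * ((3 * qq x - 2) - (3 * qq y - 2)) := by
        intro x y h
        have h1 := Rn_anti hs hl0 hl hv h
        have h2 := qq_anti h
        exact mul_nonneg (by linarith) (by linarith)
      intro x y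
      rcases le_total |x| |y| with h | h
      · exact main x y h
      · have := main y x h
        nlinarith)
  rw [int_qq, mul_zero] at key
  have hq : 0 < ∫ x, qq x := by
    rw [integral_pos_iff_support_of_nonneg (fun x => (qq_pos x).le) qq_int]
    have : Function.support qq = univ := by
      ext x; simp [(qq_pos x).ne']
    rw [this]
    simp
  by_contra hneg
  push Not at hneg
  have := mul_neg_of_neg_of_pos hneg hq
  linarith

/-- the inner integral -/
theorem inner_eq (w : ℝ) :
    ∫ x, psi s l x * cosh x * exp (-(w - x) ^ 2 / (2 * v)) =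
      exp (v / 2) * MM v * cosh w * Rn s l v w := by
  have hi : ∀ w, Integrable (fun x => (psi s l x * cosh x) * exp (-(w - x) ^ 2 / (2 * v))) := by
    intro w
    have := (int_cE hv w).bdd_mul (f := psi s l) (c := 1)
      (psi_cont s l).aestronglyMeasurable (Eventually.of_forall fun x => by
        rw [Real.norm_eq_abs, abs_of_pos (psi_pos s l x)]
        exact psi_le_one hs hl0 hl x)
    refine this.congr (Eventually.of_forall fun x => ?_)
    simp only
    ring
  rw [sym_int hv w (f := fun x => psi s l x * cosh x)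
    (fun x => by rw [psi_neg, cosh_neg]) hi]
  have e : (fun x => psi s l x * cosh x * exp (-x ^ 2 / (2 * v)) * cosh (w / v * x)) =
      fun x => om v x * psi s l x * cosh (w / v * x) := by
    funext x; unfold om; ring
  rw [e]
  have h := AA_eq hv w
  have hA := AA_pos hv w
  have : exp (-w ^ 2 / (2 * v)) * BB s l v w =
      exp (v / 2) * MM v * cosh w * Rn s l v w := by
    unfold Rn
    rw [← h]
    field_simp
  exact this

end

theorem kk_eq (w : ℝ) : kk w * cosh w = 2 * (qq w * (3 * qq w - 2)) := by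
  unfold kk sech qq
  have := cosh_pos w
  field_simp
  ring

theorem kk_neg (w : ℝ) : kk (-w) = kk w := by
  unfold kk sech
  rw [cosh_neg]

theorem kk_cont : Continuous kk := by
  unfold kk sech
  have h : Continuous (fun x : ℝ => (cosh x)⁻¹) :=
    continuous_cosh.inv₀ (fun x => (cosh_pos x).ne')
  exact (continuous_const.mul (h.pow 5)).sub (continuous_const.mul (h.pow 3))

theorem kk_bound (w : ℝ) : |kk w| ≤ 10 * qq w := by
  have h1 : kk w = 2 * (qq w * (3 * qq w - 2)) * (cosh w)⁻¹ := by
    have := kk_eq w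
    have h := cosh_pos w
    field_simp
    linarith
  have h2 : (cosh w)⁻¹ ≤ 1 := inv_le_one_of_one_le₀ (one_le_cosh w)
  have h3 : 0 < (cosh w)⁻¹ := inv_pos.2 (cosh_pos w)
  rw [h1, abs_mul, abs_mul, abs_mul, abs_of_pos h3, abs_of_pos (qq_pos w)]
  have h4 : |3 * qq w - 2| ≤ 5 := by
    rw [abs_le]
    have := qq_pos w
    have := qq_le_one w
    constructor <;> linarith
  have h5 : |(2:ℝ)| = 2 := by norm_num
  rw [h5]
  have h6 := qq_pos w
  calc 2 * (qq w * |3 * qq w - 2|) * (cosh w)⁻¹ ≤ 2 * (qq w * 5) * 1 := by gcongr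
    _ = 10 * qq w := by ring

theorem kk_int : Integrable kk :=
  (qq_int.const_mul 10).mono' kk_cont.aestronglyMeasurable
    (Eventually.of_forall fun x => by rw [Real.norm_eq_abs]; exact kk_bound x)

/-- the double integral after symmetrisation is nonnegative -/
theorem double {s l v : ℝ} (hs : 0 < s) (hl0 : 0 ≤ l) (hl : l ^ 2 ≤ 2 + 1 / s) (hv : 0 < v) :
    0 ≤ ∫ x, (psi s l x * cosh x) * ∫ w, exp (-(w - x) ^ 2 / (2 * v)) * kk w := by
  have hF : Integrable (fun x => psi s l x * cosh x) := by
    have h1 := int_cc hs l 0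
    have h2 : Integrable (fun x => cosh (l * x) * exp (-x ^ 2 / (2 * s))) := by
      simpa using h1
    have h3 := h2.bdd_mul (f := fun x => (cosh x)⁻¹) (c := 1)
      (continuous_cosh.inv₀ (fun x => (cosh_pos x).ne')).aestronglyMeasurable
      (Eventually.of_forall fun x => by
        rw [Real.norm_eq_abs, abs_of_pos (inv_pos.2 (cosh_pos x))]
        exact inv_le_one_of_one_le₀ (one_le_cosh x))
    refine h3.congr (Eventually.of_forall fun x => ?_)
    simp only
    unfold psi
    have := cosh_pos x
    field_simp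
  have hprod : Integrable (Function.uncurry fun x w =>
      psi s l x * cosh x * (exp (-(w - x) ^ 2 / (2 * v)) * kk w)) (volume.prod volume) := by
    have h1 := hF.mul_prod kk_int
    have h2 := h1.bdd_mul (f := fun p : ℝ × ℝ => exp (-(p.2 - p.1) ^ 2 / (2 * v))) (c := 1)
      (by
        apply Continuous.aestronglyMeasurable
        fun_prop)
      (Eventually.of_forall fun p => by
        rw [Real.norm_eq_abs, abs_of_pos (exp_pos _)]
        rw [exp_le_one_iff]
        have : 0 ≤ (p.2 - p.1) ^ 2 / (2 * v) := by positivity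
        have e : -(p.2 - p.1) ^ 2 / (2 * v) = -((p.2 - p.1) ^ 2 / (2 * v)) := by ring
        rw [e]
        linarith)
    refine h2.congr (Eventually.of_forall fun p => ?_)
    simp only [Function.uncurry]
    ring
  have e1 : ∫ x, (psi s l x * cosh x) * ∫ w, exp (-(w - x) ^ 2 / (2 * v)) * kk w =
      ∫ w, ∫ x, psi s l x * cosh x * (exp (-(w - x) ^ 2 / (2 * v)) * kk w) := by
    rw [← integral_integral_swap hprod]
    congr 1
    funext x
    rw [integral_const_mul]
  have e2 : ∀ w, ∫ x, psi s l x * cosh x * (exp (-(w - x) ^ 2 / (2 * v)) * kk w) =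
      (2 * exp (v / 2) * MM v) * (qq w * Rn s l v w * (3 * qq w - 2)) := by
    intro w
    have e3 : (fun x => psi s l x * cosh x * (exp (-(w - x) ^ 2 / (2 * v)) * kk w)) =
        fun x => (psi s l x * cosh x * exp (-(w - x) ^ 2 / (2 * v))) * kk w := by
      funext x; ring
    rw [e3, integral_mul_const, inner_eq hs hl0 hl hv w]
    have := kk_eq w
    calc exp (v / 2) * MM v * cosh w * Rn s l v w * kk w =
        exp (v / 2) * MM v * Rn s l v w * (kk w * cosh w) := by ring
      _ = _ := by rw [this]; ring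
  rw [e1]
  simp_rw [e2]
  rw [integral_const_mul]
  refine mul_nonneg ?_ (int_Rn hs hl0 hl hv)
  have := MM_pos hv
  have := exp_pos (v / 2)
  positivity

/-! ### Gaussian expectations as integrals -/

/-- the constant `1 / √(2 π)` -/
noncomputable def c0 : ℝ := (√(2 * π * 1))⁻¹

theorem c0_pos : 0 < c0 := by
  unfold c0
  have := pi_pos
  positivity

theorem E1_eq (G : ℝ → ℝ) (m : ℝ) {σ : ℝ} (hσ : 0 < σ) :
    E1 (fun z => G (m + √σ * z)) =
      c0 * (√σ)⁻¹ * ∫ x, exp (-(x - m) ^ 2 / (2 * σ)) * G x := by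
  unfold E1
  rw [ProbabilityTheory.integral_gaussianReal_eq_integral_smul (by norm_num)]
  have hr : 0 < √σ := sqrt_pos.2 hσ
  have e1 : (fun z => ProbabilityTheory.gaussianPDFReal 0 1 z • G (m + √σ * z)) =
      fun z => c0 * (fun x => exp (-(x - m) ^ 2 / (2 * σ)) * G x) (m + √σ * z) := by
    funext z
    simp only [ProbabilityTheory.gaussianPDFReal, smul_eq_mul, c0]
    have e2 : -(m + √σ * z - m) ^ 2 / (2 * σ) = -(z - 0) ^ 2 / (2 * ((1:NNReal):ℝ)) := by
      have h1 : (m + √σ * z - m) ^ 2 = σ * z ^ 2 := by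
        rw [add_sub_cancel_left, mul_pow, sq_sqrt hσ.le]
      rw [h1]
      simp only [NNReal.coe_one]
      field_simp
      ring
    rw [e2]
    simp only [NNReal.coe_one]
    ring
  rw [e1, integral_const_mul]
  have e3 : ∫ z, (fun x => exp (-(x - m) ^ 2 / (2 * σ)) * G x) (m + √σ * z) =
      (√σ)⁻¹ * ∫ x, exp (-(x - m) ^ 2 / (2 * σ)) * G x := by
    have h1 := Measure.integral_comp_mul_left
      (fun y => (fun x => exp (-(x - m) ^ 2 / (2 * σ)) * G x) (m + y)) (√σ)
    rw [h1, abs_of_pos (inv_pos.2 hr), smul_eq_mul]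
    congr 1
    exact integral_add_left_eq_self (fun x => exp (-(x - m) ^ 2 / (2 * σ)) * G x) m
  rw [e3]
  ring

/-- the inner expectation -/
noncomputable def kap (v x : ℝ) : ℝ := ∫ w, exp (-(w - x) ^ 2 / (2 * v)) * kk w

theorem kap_neg (v x : ℝ) : kap v (-x) = kap v x := by
  unfold kap
  rw [← integral_neg_eq_self (fun w => exp (-(w - -x) ^ 2 / (2 * v)) * kk w)]
  congr 1
  funext w
  rw [kk_neg]
  congr 3
  ring

theorem kap_bound {v : ℝ} (hv : 0 < v) (x : ℝ) : |kap v x| ≤ 10 * MM v := by
  unfold kap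
  have h1 : |∫ w, exp (-(w - x) ^ 2 / (2 * v)) * kk w| ≤
      ∫ w, 10 * exp (-(w - x) ^ 2 / (2 * v)) := by
    rw [← Real.norm_eq_abs]
    apply norm_integral_le_of_norm_le ((int_shift hv x).const_mul 10)
    refine Eventually.of_forall fun w => ?_
    rw [Real.norm_eq_abs, abs_mul, abs_of_pos (exp_pos _)]
    have h2 : |kk w| ≤ 10 := (kk_bound w).trans (by have := qq_le_one w; linarith)
    have h3 := (exp_pos (-(w - x) ^ 2 / (2 * v))).le
    nlinarith
  rwa [integral_const_mul, gauss_shift] at h1

theorem kap_meas (v : ℝ) : AEStronglyMeasurable (kap v) := by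
  unfold kap
  have h : AEStronglyMeasurable
      (fun p : ℝ × ℝ => exp (-(p.2 - p.1) ^ 2 / (2 * v)) * kk p.2) (volume.prod volume) := by
    apply Continuous.aestronglyMeasurable
    have := kk_cont
    fun_prop
  exact h.integral_prod_right'

theorem t_CLAIM : St_CLAIM := by
  intro s h v hs h0 hh hv
  set l : ℝ := h / s with hl
  have hl0 : 0 ≤ l := div_nonneg h0 hs.le
  have hl2 : l ^ 2 ≤ 2 + 1 / s := by
    rw [hl, div_pow, div_le_iff₀ (by positivity)]
    have : (2 + 1 / s) * s ^ 2 = 2 * s ^ 2 + s := by field_simp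
    rw [this]
    exact hh
  have e1 : (fun z => sech (h + √s * z) * E1 (fun y => kk (h + √s * z + √v * y))) =
      fun z => (fun x => sech x * (c0 * (√v)⁻¹ * kap v x)) (h + √s * z) := by
    funext z
    simp only
    rw [E1_eq kk (h + √s * z) hv]
    rfl
  rw [e1, E1_eq (fun x => sech x * (c0 * (√v)⁻¹ * kap v x)) h hs]
  have hc : 0 ≤ c0 * (√s)⁻¹ := mul_nonneg c0_pos.le (inv_nonneg.2 (sqrt_nonneg _))
  refine mul_nonneg hc ?_
  have e2 : (fun x => exp (-(x - h) ^ 2 / (2 * s)) * (sech x * (c0 * (√v)⁻¹ * kap v x))) =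
      fun x => (c0 * (√v)⁻¹) * ((sech x * kap v x) * exp (-(h - x) ^ 2 / (2 * s))) := by
    funext x
    have : (x - h) ^ 2 = (h - x) ^ 2 := by ring
    rw [this]
    ring
  rw [e2, integral_const_mul]
  refine mul_nonneg (mul_nonneg c0_pos.le (inv_nonneg.2 (sqrt_nonneg _))) ?_
  have hsech : ∀ x, sech (-x) = sech x := fun x => by unfold sech; rw [cosh_neg]
  have hsc : Continuous sech := by
    unfold sech
    exact continuous_cosh.inv₀ (fun x => (cosh_pos x).ne')
  have hs1 : ∀ x, |sech x| ≤ 1 := fun x => by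
    unfold sech
    rw [abs_of_pos (inv_pos.2 (cosh_pos x))]
    exact inv_le_one_of_one_le₀ (one_le_cosh x)
  have hi : ∀ w, Integrable (fun x => (sech x * kap v x) * exp (-(w - x) ^ 2 / (2 * s))) := by
    intro w
    have h1 : Integrable (fun x => exp (-(w - x) ^ 2 / (2 * s))) := by
      have := int_shift hs w
      refine this.congr (Eventually.of_forall fun x => ?_)
      simp only
      congr 2
      ring
    exact h1.bdd_mul (c := 10 * MM v) (hsc.aestronglyMeasurable.mul (kap_meas v))
      (Eventually.of_forall fun x => by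
        rw [norm_mul, Real.norm_eq_abs, Real.norm_eq_abs]
        have h1 := hs1 x
        have h2 := kap_bound hv x
        have h3 := abs_nonneg (kap v x)
        have h4 := abs_nonneg (sech x)
        nlinarith)
  rw [sym_int hs h (f := fun x => sech x * kap v x)
    (fun x => by rw [hsech, kap_neg]) hi]
  refine mul_nonneg (exp_pos _).le ?_
  have e3 : (fun x => sech x * kap v x * exp (-x ^ 2 / (2 * s)) * cosh (h / s * x)) =
      fun x => (psi s l x * cosh x) * ∫ w, exp (-(w - x) ^ 2 / (2 * v)) * kk w := by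
    funext x
    have : psi s l x * cosh x = sech x * exp (-x ^ 2 / (2 * s)) * cosh (h / s * x) := by
      unfold psi sech
      rw [← hl]
      have := cosh_pos x
      field_simp
    rw [this]
    unfold kap
    ring
  rw [e3]
  exact double hs hl0 hl2 hv

end Pool.Agent.TH136.AT
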