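import Pool.Agent.TH198.AT.Stmts2
import Pool.Agent.TH136.AT.CLAIM

set_option autoImplicit false

namespace Pool.Agent.TH136.AT

open MeasureTheory Real Set Filter Topology Pool.TH198.AT

/-- strict Chebyshev inequality -/
theorem cheb_strict {w f g : ℝ → ℝ} (hw : ∀ x, 0 < w x) (Iw : Integrable w)
    (If : Integrable (fun x => w x * f x)) (Ig : Integrable (fun x => w x * g x))
    (Ifg : Integrable (fun x => w x * f x * g x))
    (h0 : ∀ x y, 0 ≤ (f x - f y) * (g x - g y))
    (h : ∀ x y, |x| ≠ |y| → 0 < (f x - f y) * (g x - g y)) :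
    (∫ x, w x * f x) * (∫ x, w x * g x) < (∫ x, w x * f x * g x) * (∫ x, w x) := by
  set W := ∫ x, w x with hW
  set F := ∫ x, w x * f x with hF
  set G := ∫ x, w x * g x with hG
  set H := ∫ x, w x * f x * g x with hH
  have e : ∀ x, (fun y => (w x * w y) * ((f x - f y) * (g x - g y))) =
      fun y => (w x * f x * g x) * w y - (w x * f x) * (w y * g y) - (w x * g x) * (w y * f y)
        + w x * (w y * f y * g y) := by
    intro x
    funext y; ring
  have inner : ∀ x, ∫ y, (w x * w y) * ((f x - f y) * (g x - g y)) =
      w x * f x * g x * W - w x * f x * G - w x * g x * F + w x * H := by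
    intro x
    rw [e, integral_add, integral_sub, integral_sub, integral_const_mul, integral_const_mul,
      integral_const_mul, integral_const_mul]
    · exact Iw.const_mul _
    · exact Ig.const_mul _
    · exact (Iw.const_mul _).sub (Ig.const_mul _)
    · exact If.const_mul _
    · exact ((Iw.const_mul _).sub (Ig.const_mul _)).sub (If.const_mul _)
    · exact Ifg.const_mul _
  have innerI : ∀ x, Integrable (fun y => (w x * w y) * ((f x - f y) * (g x - g y))) := by
    intro x
    rw [e]
    exact (((Iw.const_mul _).sub (Ig.const_mul _)).sub (If.const_mul _)).add (Ifg.const_mul _)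
  have ipos : ∀ x, 0 < ∫ y, (w x * w y) * ((f x - f y) * (g x - g y)) := by
    intro x
    rw [integral_pos_iff_support_of_nonneg (fun y =>
      mul_nonneg (mul_nonneg (hw x).le (hw y).le) (h0 x y)) (innerI x)]
    refine lt_of_lt_of_le ?_ (measure_mono (s := Ioo (|x| + 1) (|x| + 2)) ?_)
    · rw [volume_Ioo]
      norm_num
    · intro y hy
      have h1 : |x| ≠ |y| := by
        have h2 : |y| = y := abs_of_pos (by have := abs_nonneg x; linarith [hy.1])
        rw [h2]
        have := hy.1
        intro h3
        linarith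
      exact (mul_pos (mul_pos (hw x) (hw y)) (h x y h1)).ne'
  have totI : Integrable (fun x => ∫ y, (w x * w y) * ((f x - f y) * (g x - g y))) := by
    simp_rw [inner]
    exact (((Ifg.mul_const _).sub (If.mul_const _)).sub (Ig.mul_const _)).add (Iw.mul_const _)
  have pos : 0 < ∫ x, ∫ y, (w x * w y) * ((f x - f y) * (g x - g y)) := by
    rw [integral_pos_iff_support_of_nonneg (fun x => (ipos x).le) totI]
    have : Function.support (fun x => ∫ y, (w x * w y) * ((f x - f y) * (g x - g y))) = univ := by
      ext x
      simp [(ipos x).ne']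
    rw [this]
    simp
  have tot : ∫ x, ∫ y, (w x * w y) * ((f x - f y) * (g x - g y)) =
      H * W - F * G - G * F + W * H := by
    simp_rw [inner]
    rw [integral_add, integral_sub, integral_sub, integral_mul_const, integral_mul_const,
      integral_mul_const, integral_mul_const]
    · exact Ifg.mul_const _
    · exact If.mul_const _
    · exact (Ifg.mul_const _).sub (If.mul_const _)
    · exact Ig.mul_const _
    · exact ((Ifg.mul_const _).sub (If.mul_const _)).sub (Ig.mul_const _)
    · exact Iw.mul_const _
  rw [tot] at pos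
  nlinarith

theorem tanh_strict : StrictMono (fun x : ℝ => sinh x / cosh x) := by
  apply strictMono_of_deriv_pos
  intro x
  rw [(hasDerivAt_th x).deriv]
  have := cosh_pos x
  positivity

/-- the strict basic inequality -/
theorem th_strict {l c x : ℝ} (hl0 : 0 ≤ l) (hc0 : 0 < c) (hc : l ^ 2 - 2 ≤ c) (hx : 0 < x) :
    l * (sinh (l * x) / cosh (l * x)) < c * x + 2 * (sinh x / cosh x) := by
  rcases le_or_gt (l ^ 2) 2 with h | h
  · have h1 := th_ineq (l := l) (c := 0) (x := x) hl0 le_rfl (by linarith) hx.le
    have : 0 < c * x := mul_pos hc0 hx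
    linarith
  · have hl1 : 1 < l := by nlinarith
    set m : ℝ → ℝ := fun x => c * x + 2 * (sinh x / cosh x) - l * (sinh (l * x) / cosh (l * x))
      with hm
    have hd : ∀ x, HasDerivAt m (c + 2 * (1 / cosh x ^ 2) - l * (1 / cosh (l * x) ^ 2 * l)) x := by
      intro x
      have h1 : HasDerivAt (fun x => l * x) l x := by
        simpa using (hasDerivAt_id x).const_mul l
      have h2 := (hasDerivAt_th (l * x)).comp x h1
      have h3 : HasDerivAt (fun x => c * x) c x := by
        simpa using (hasDerivAt_id x).const_mul c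
      exact (h3.add ((hasDerivAt_th x).const_mul 2)).sub (h2.const_mul l)
    have hmono : StrictMonoOn m (Ici 0) := by
      apply strictMonoOn_of_deriv_pos (convex_Ici 0)
      · exact fun x _ => (hd x).continuousAt.continuousWithinAt
      · intro x hx
        rw [interior_Ici] at hx
        rw [(hd x).deriv]
        have hx0 : (0:ℝ) < x := hx
        have e1 : 1 / cosh x ^ 2 = 1 - (sinh x / cosh x) ^ 2 := by
          have := cosh_pos x
          field_simp
          have := cosh_sq_sub_sinh_sq x
          linarith
        have e2 : 1 / cosh (l * x) ^ 2 = 1 - (sinh (l * x) / cosh (l * x)) ^ 2 := by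
          have := cosh_pos (l * x)
          field_simp
          have := cosh_sq_sub_sinh_sq (l * x)
          linarith
        rw [e1, e2]
        have h0 : 0 < sinh x / cosh x := by
          have := tanh_strict hx0
          simpa using this
        have h1 : sinh x / cosh x < sinh (l * x) / cosh (l * x) :=
          tanh_strict (by nlinarith)
        set p := sinh x / cosh x
        set q := sinh (l * x) / cosh (l * x)
        have h2 : p ^ 2 < q ^ 2 := pow_lt_pow_left₀ h1 h0.le (by norm_num)
        have h3 : 2 * p ^ 2 < l ^ 2 * q ^ 2 := by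
          have : 0 ≤ q ^ 2 := sq_nonneg q
          nlinarith
        nlinarith
    have := hmono (self_mem_Ici) (show x ∈ Ici 0 from hx.le) hx
    simp only [hm] at this
    simp at this
    linarith

theorem psi_strictAnti {s l : ℝ} (hs : 0 < s) (hl0 : 0 ≤ l) (hl : l ^ 2 ≤ 2 + 1 / s) :
    StrictAntiOn (psi s l) (Ici 0) := by
  have hd : ∀ x, HasDerivAt (psi s l)
      (psi s l x * (l * (sinh (l * x) / cosh (l * x)) - (1 / s * x + 2 * (sinh x / cosh x)))) x := by
    intro x
    have h1 : HasDerivAt (fun x : ℝ => -x ^ 2 / (2 * s)) (-x / s) x := by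
      have := ((hasDerivAt_pow 2 x).neg).div_const (2 * s)
      have e : -((2:ℕ) * x ^ (2 - 1)) / (2 * s) = -x / s := by
        field_simp
        norm_num
      rwa [e] at this
    have h2 : HasDerivAt (fun x : ℝ => cosh (l * x)) (sinh (l * x) * l) x := by
      have : HasDerivAt (fun x => l * x) l x := by
        simpa using (hasDerivAt_id x).const_mul l
      exact (hasDerivAt_cosh (l * x)).comp x this
    have h3 : HasDerivAt (fun x : ℝ => cosh x ^ 2) (2 * cosh x * sinh x) x := by
      have := (hasDerivAt_cosh x).fun_pow 2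
      simpa using this
    have h4 := ((h1.exp).mul h2).div h3 (by have := cosh_pos x; positivity)
    have e : ((exp (-x ^ 2 / (2 * s)) * (-x / s) * cosh (l * x) +
        exp (-x ^ 2 / (2 * s)) * (sinh (l * x) * l)) * cosh x ^ 2 -
        exp (-x ^ 2 / (2 * s)) * cosh (l * x) * (2 * cosh x * sinh x)) / (cosh x ^ 2) ^ 2 =
        psi s l x * (l * (sinh (l * x) / cosh (l * x)) - (1 / s * x + 2 * (sinh x / cosh x))) := by
      unfold psi
      have := cosh_pos (l * x)
      have := cosh_pos x
      field_simp
      ring
    rw [← e]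
    exact h4
  apply strictAntiOn_of_deriv_neg (convex_Ici 0)
  · exact fun x _ => (hd x).continuousAt.continuousWithinAt
  · intro x hx
    rw [interior_Ici] at hx
    rw [(hd x).deriv]
    have hx0 : (0:ℝ) < x := hx
    have := th_strict (l := l) (c := 1 / s) (x := x) hl0 (by positivity) (by linarith) hx0
    exact mul_neg_of_pos_of_neg (psi_pos s l x) (by linarith)

theorem cosh_ratio_strict {a b t u : ℝ} (ha : 0 ≤ a) (hab : a < b) (ht : 0 ≤ t) (htu : t < u) :
    cosh (b * t) * cosh (a * u) < cosh (b * u) * cosh (a * t) := by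
  have p : ∀ x y : ℝ, cosh x * cosh y = (cosh (x + y) + cosh (x - y)) / 2 := by
    intro x y; rw [cosh_add, cosh_sub]; ring
  rw [p, p]
  have h1 : cosh (b * t + a * u) < cosh (b * u + a * t) := by
    have hb := ha.trans hab.le
    have hu := ht.trans htu.le
    rw [cosh_lt_cosh, abs_of_nonneg (by positivity), abs_of_nonneg (by positivity)]
    nlinarith [mul_pos (sub_pos.2 hab) (sub_pos.2 htu)]
  have h2 : cosh (b * t - a * u) ≤ cosh (b * u - a * t) := by
    rw [cosh_le_cosh]
    have hu := ht.trans htu.le
    have hb := ha.trans hab.le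
    have : a * t ≤ b * u := mul_le_mul hab.le htu.le ht hb
    rw [abs_of_nonneg (sub_nonneg.2 this), abs_le]
    constructor
    · nlinarith [mul_nonneg (sub_nonneg.2 hab.le) hu, mul_nonneg (sub_nonneg.2 hab.le) ht]
    · nlinarith [mul_nonneg hb (sub_nonneg.2 htu.le), mul_nonneg ha (sub_nonneg.2 htu.le)]
  linarith

/-- the ratio `B / A` is strictly decreasing -/
theorem ratio_strict {s l v w1 w2 : ℝ} (hs : 0 < s) (hl0 : 0 ≤ l) (hl : l ^ 2 ≤ 2 + 1 / s)
    (hv : 0 < v) (h1 : 0 ≤ w1) (h12 : w1 < w2) :
    BB s l v w2 / AA v w2 < BB s l v w1 / AA v w1 := by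
  set W : ℝ → ℝ := fun x => om v x * cosh (w1 / v * x) with hW
  set g : ℝ → ℝ := fun x => -(cosh (w2 / v * x) / cosh (w1 / v * x)) with hg
  have hc : ∀ x, cosh (w1 / v * x) ≠ 0 := fun x => (cosh_pos _).ne'
  have eg : ∀ x, W x * g x = -(om v x * cosh (w2 / v * x)) := by
    intro x
    simp only [hW, hg]
    have := hc x
    field_simp
  have efg : ∀ x, W x * psi s l x * g x = -(om v x * psi s l x * cosh (w2 / v * x)) := by
    intro x
    have := eg x
    calc W x * psi s l x * g x = (W x * g x) * psi s l x := by ring
      _ = _ := by rw [this]; ring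
  have ef : ∀ x, W x * psi s l x = om v x * psi s l x * cosh (w1 / v * x) := by
    intro x; simp only [hW]; ring
  have ea : ∀ c t : ℝ, 0 ≤ c → cosh (c * t) = cosh (c * |t|) := by
    intro c t hc0
    rw [← cosh_abs (c * t), abs_mul, abs_of_nonneg hc0]
  have hw1 : 0 ≤ w1 / v := by positivity
  have hw2 : 0 ≤ w2 / v := div_nonneg (h1.trans h12.le) hv.le
  have hw12 : w1 / v < w2 / v := by gcongr
  have key := cheb_strict (w := W) (f := psi s l) (g := g)
    (fun x => (mul_pos (om_pos v x) (cosh_pos _))) (int_om hv _)
    (by simp_rw [ef]; exact int_ompsi hs hl0 hl hv _)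
    (by simp_rw [eg]; exact (int_om hv _).neg)
    (by simp_rw [efg]; exact (int_ompsi hs hl0 hl hv _).neg)
    (by
      have main : ∀ x y : ℝ, |x| ≤ |y| → 0 ≤ (psi s l x - psi s l y) * (g x - g y) := by
        intro x y hxy
        have p1 : psi s l y ≤ psi s l x := by
          rw [← psi_abs s l y, ← psi_abs s l x]
          exact psi_antitone hs hl0 hl (abs_nonneg x) (abs_nonneg y) hxy
        have p2 : g y ≤ g x := by
          simp only [hg]
          rw [ea _ x hw2, ea _ x hw1, ea _ y hw2, ea _ y hw1, neg_le_neg_iff,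
            div_le_div_iff₀ (cosh_pos _) (cosh_pos _)]
          exact cosh_ratio hw1 hw12.le (abs_nonneg x) hxy
        exact mul_nonneg (by linarith) (by linarith)
      intro x y
      rcases le_total |x| |y| with h | h
      · exact main x y h
      · have := main y x h
        nlinarith)
    (by
      have main : ∀ x y : ℝ, |x| < |y| → 0 < (psi s l x - psi s l y) * (g x - g y) := by
        intro x y hxy
        have p1 : psi s l y < psi s l x := by
          rw [← psi_abs s l y, ← psi_abs s l x]
          exact psi_strictAnti hs hl0 hl (abs_nonneg x) (abs_nonneg y) hxy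
        have p2 : g y < g x := by
          simp only [hg]
          rw [ea _ x hw2, ea _ x hw1, ea _ y hw2, ea _ y hw1, neg_lt_neg_iff,
            div_lt_div_iff₀ (cosh_pos _) (cosh_pos _)]
          exact cosh_ratio_strict hw1 hw12 (abs_nonneg x) hxy
        exact mul_pos (by linarith) (by linarith)
      intro x y hne
      rcases lt_or_gt_of_ne hne with h | h
      · exact main x y h
      · have := main y x h
        nlinarith)
  simp_rw [efg, ef, eg] at key
  rw [integral_neg, integral_neg] at key
  rw [div_lt_div_iff₀ (AA_pos hv _) (AA_pos hv _)]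
  have key2 : -(∫ x, om v x * psi s l x * cosh (w1 / v * x)) * (∫ x, om v x * cosh (w2 / v * x)) <
      -(∫ x, om v x * psi s l x * cosh (w2 / v * x)) * (∫ x, W x) := by
    calc -(∫ x, om v x * psi s l x * cosh (w1 / v * x)) * (∫ x, om v x * cosh (w2 / v * x))
        = (∫ x, om v x * psi s l x * cosh (w1 / v * x)) *
          -(∫ x, om v x * cosh (w2 / v * x)) := by ring
      _ < _ := key
  have e1 : BB s l v w1 = ∫ x, om v x * psi s l x * cosh (w1 / v * x) := rfl
  have e2 : BB s l v w2 = ∫ x, om v x * psi s l x * cosh (w2 / v * x) := rfl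
  have e3 : AA v w2 = ∫ x, om v x * cosh (w2 / v * x) := rfl
  have e4 : AA v w1 = ∫ x, W x := rfl
  rw [e1, e2, e3, e4]
  linarith

section
variable {s l v : ℝ} (hs : 0 < s) (hl0 : 0 ≤ l) (hl : l ^ 2 ≤ 2 + 1 / s) (hv : 0 < v)
include hs hl0 hl hv

theorem Rn_strict {x y : ℝ} (h : |x| < |y|) : Rn s l v y < Rn s l v x := by
  rw [← Rn_abs s l v x, ← Rn_abs s l v y]
  exact ratio_strict hs hl0 hl hv (abs_nonneg x) h

/-- the key integral is positive -/
theorem int_Rn_pos : 0 < ∫ x, qq x * Rn s l v x * (3 * qq x - 2) := by
  have hm := (Rn_meas hs hl0 hl hv)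
  have hb : ∀ x, ‖Rn s l v x‖ ≤ 1 := fun x => by
    rw [Real.norm_eq_abs, abs_of_nonneg (Rn_nonneg hs hl0 hl hv x)]
    exact Rn_le_one hs hl0 hl hv x
  have hg : ∀ x, ‖3 * qq x - 2‖ ≤ 5 := fun x => by
    rw [Real.norm_eq_abs, abs_le]
    have := qq_pos x
    have := qq_le_one x
    constructor <;> linarith
  have hgc : Continuous (fun x => 3 * qq x - 2) := (continuous_const.mul qq_cont).sub continuous_const
  have I1 : Integrable (fun x => qq x * Rn s l v x) := by
    have := qq_int.bdd_mul (f := Rn s l v) (c := 1) hm.aestronglyMeasurable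
      (Eventually.of_forall hb)
    refine this.congr (Eventually.of_forall fun x => ?_)
    simp only
    ring
  have I2 : Integrable (fun x => qq x * (3 * qq x - 2)) := by
    have := qq_int.bdd_mul (f := fun x => 3 * qq x - 2) (c := 5) hgc.aestronglyMeasurable
      (Eventually.of_forall hg)
    refine this.congr (Eventually.of_forall fun x => ?_)
    simp only
    ring
  have I3 : Integrable (fun x => qq x * Rn s l v x * (3 * qq x - 2)) := by
    have := I1.bdd_mul (f := fun x => 3 * qq x - 2) (c := 5) hgc.aestronglyMeasurable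
      (Eventually.of_forall hg)
    refine this.congr (Eventually.of_forall fun x => ?_)
    simp only
    ring
  have key := cheb_strict (w := qq) (f := Rn s l v) (g := fun x => 3 * qq x - 2)
    qq_pos qq_int I1 I2 I3 (by
      have main : ∀ x y : ℝ, |x| ≤ |y| →
          0 ≤ (Rn s l v x - Rn s l v y) * ((3 * qq x - 2) - (3 * qq y - 2)) := by
        intro x y h
        have h1 := Rn_anti hs hl0 hl hv h
        have h2 := qq_anti h
        exact mul_nonneg (by linarith) (by linarith)
      intro x y
      rcases le_total |x| |y| with h | h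
      · exact main x y h
      · have := main y x h
        nlinarith)
    (by
      have main : ∀ x y : ℝ, |x| < |y| →
          0 < (Rn s l v x - Rn s l v y) * ((3 * qq x - 2) - (3 * qq y - 2)) := by
        intro x y h
        have h1 := Rn_strict hs hl0 hl hv h
        have h2 : qq y < qq x := by
          unfold qq
          have h1 := cosh_pos x
          have h2 := cosh_lt_cosh.2 h
          gcongr
        exact mul_pos (by linarith) (by linarith)
      intro x y hne
      rcases lt_or_gt_of_ne hne with h | h
      · exact main x y h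
      · have := main y x h
        nlinarith)
  rw [int_qq, mul_zero] at key
  have hq : 0 ≤ ∫ x, qq x := integral_nonneg fun x => (qq_pos x).le
  by_contra hneg
  push Not at hneg
  have := mul_nonpos_of_nonpos_of_nonneg hneg hq
  linarith

end

/-- the double integral after symmetrisation is positive -/
theorem double_pos {s l v : ℝ} (hs : 0 < s) (hl0 : 0 ≤ l) (hl : l ^ 2 ≤ 2 + 1 / s) (hv : 0 < v) :
    0 < ∫ x, (psi s l x * cosh x) * ∫ w, exp (-(w - x) ^ 2 / (2 * v)) * kk w := by
  have hF : Integrable (fun x => psi s l x * cosh x) := by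
    have h1 := int_cc hs l 0
    have h2 : Integrable (fun x => cosh (l * x) * exp (-x ^ 2 / (2 * s))) := by
      simpa using h1
    have h3 := h2.bdd_mul (f := fun x => (cosh x)⁻¹) (c := 1)
      (continuous_cosh.inv₀ (fun x => (cosh_pos x).ne')).aestronglyMeasurable
      (Eventually.of_forall fun x => by
        rw [Real.norm_eq_abs, abs_of_pos (inv_pos.2 (cosh_pos x))]
        exact inv_le_one_of_one_le₀ (one_le_cosh x))
    refine h3.congr (Eventually.of_forall fun x => ?_)
    simp only
    unfold psi
    have := cosh_pos x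
    field_simp
  have hprod : Integrable (Function.uncurry fun x w =>
      psi s l x * cosh x * (exp (-(w - x) ^ 2 / (2 * v)) * kk w)) (volume.prod volume) := by
    have h1 := hF.mul_prod kk_int
    have h2 := h1.bdd_mul (f := fun p : ℝ × ℝ => exp (-(p.2 - p.1) ^ 2 / (2 * v))) (c := 1)
      (by
        apply Continuous.aestronglyMeasurable
        fun_prop)
      (Eventually.of_forall fun p => by
        rw [Real.norm_eq_abs, abs_of_pos (exp_pos _)]
        rw [exp_le_one_iff]
        have : 0 ≤ (p.2 - p.1) ^ 2 / (2 * v) := by positivity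
        have e : -(p.2 - p.1) ^ 2 / (2 * v) = -((p.2 - p.1) ^ 2 / (2 * v)) := by ring
        rw [e]
        linarith)
    refine h2.congr (Eventually.of_forall fun p => ?_)
    simp only [Function.uncurry]
    ring
  have e1 : ∫ x, (psi s l x * cosh x) * ∫ w, exp (-(w - x) ^ 2 / (2 * v)) * kk w =
      ∫ w, ∫ x, psi s l x * cosh x * (exp (-(w - x) ^ 2 / (2 * v)) * kk w) := by
    rw [← integral_integral_swap hprod]
    congr 1
    funext x
    rw [integral_const_mul]
  have e2 : ∀ w, ∫ x, psi s l x * cosh x * (exp (-(w - x) ^ 2 / (2 * v)) * kk w) =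
      (2 * exp (v / 2) * MM v) * (qq w * Rn s l v w * (3 * qq w - 2)) := by
    intro w
    have e3 : (fun x => psi s l x * cosh x * (exp (-(w - x) ^ 2 / (2 * v)) * kk w)) =
        fun x => (psi s l x * cosh x * exp (-(w - x) ^ 2 / (2 * v))) * kk w := by
      funext x; ring
    rw [e3, integral_mul_const, inner_eq hs hl0 hl hv w]
    have := kk_eq w
    calc exp (v / 2) * MM v * cosh w * Rn s l v w * kk w =
        exp (v / 2) * MM v * Rn s l v w * (kk w * cosh w) := by ring
      _ = _ := by rw [this]; ring
  rw [e1]
  simp_rw [e2]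
  rw [integral_const_mul]
  refine mul_pos ?_ (int_Rn_pos hs hl0 hl hv)
  have := MM_pos hv
  have := exp_pos (v / 2)
  positivity

theorem t_CLAIMS : St_CLAIMS := by
  intro s h v hs h0 hh hv
  set l : ℝ := h / s with hl
  have hl0 : 0 ≤ l := div_nonneg h0 hs.le
  have hl2 : l ^ 2 ≤ 2 + 1 / s := by
    rw [hl, div_pow, div_le_iff₀ (by positivity)]
    have : (2 + 1 / s) * s ^ 2 = 2 * s ^ 2 + s := by field_simp
    rw [this]
    exact hh
  have e1 : (fun z => sech (h + √s * z) * E1 (fun y => kk (h + √s * z + √v * y))) =
      fun z => (fun x => sech x * (c0 * (√v)⁻¹ * kap v x)) (h + √s * z) := by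
    funext z
    simp only
    rw [E1_eq kk (h + √s * z) hv]
    rfl
  rw [e1, E1_eq (fun x => sech x * (c0 * (√v)⁻¹ * kap v x)) h hs]
  have hc : 0 < c0 * (√s)⁻¹ := mul_pos c0_pos (inv_pos.2 (sqrt_pos.2 hs))
  refine mul_pos hc ?_
  have e2 : (fun x => exp (-(x - h) ^ 2 / (2 * s)) * (sech x * (c0 * (√v)⁻¹ * kap v x))) =
      fun x => (c0 * (√v)⁻¹) * ((sech x * kap v x) * exp (-(h - x) ^ 2 / (2 * s))) := by
    funext x
    have : (x - h) ^ 2 = (h - x) ^ 2 := by ring
    rw [this]
    ring
  rw [e2, integral_const_mul]
  refine mul_pos (mul_pos c0_pos (inv_pos.2 (sqrt_pos.2 hv))) ?_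
  have hsech : ∀ x, sech (-x) = sech x := fun x => by unfold sech; rw [cosh_neg]
  have hsc : Continuous sech := by
    unfold sech
    exact continuous_cosh.inv₀ (fun x => (cosh_pos x).ne')
  have hs1 : ∀ x, |sech x| ≤ 1 := fun x => by
    unfold sech
    rw [abs_of_pos (inv_pos.2 (cosh_pos x))]
    exact inv_le_one_of_one_le₀ (one_le_cosh x)
  have hi : ∀ w, Integrable (fun x => (sech x * kap v x) * exp (-(w - x) ^ 2 / (2 * s))) := by
    intro w
    have h1 : Integrable (fun x => exp (-(w - x) ^ 2 / (2 * s))) := by
      have := int_shift hs w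
      refine this.congr (Eventually.of_forall fun x => ?_)
      simp only
      congr 2
      ring
    exact h1.bdd_mul (c := 10 * MM v) (hsc.aestronglyMeasurable.mul (kap_meas v))
      (Eventually.of_forall fun x => by
        rw [norm_mul, Real.norm_eq_abs, Real.norm_eq_abs]
        have h1 := hs1 x
        have h2 := kap_bound hv x
        have h3 := abs_nonneg (kap v x)
        have h4 := abs_nonneg (sech x)
        nlinarith)
  rw [sym_int hs h (f := fun x => sech x * kap v x)
    (fun x => by rw [hsech, kap_neg]) hi]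
  refine mul_pos (exp_pos _) ?_
  have e3 : (fun x => sech x * kap v x * exp (-x ^ 2 / (2 * s)) * cosh (h / s * x)) =
      fun x => (psi s l x * cosh x) * ∫ w, exp (-(w - x) ^ 2 / (2 * v)) * kk w := by
    funext x
    have : psi s l x * cosh x = sech x * exp (-x ^ 2 / (2 * s)) * cosh (h / s * x) := by
      unfold psi sech
      rw [← hl]
      have := cosh_pos x
      field_simp
    rw [this]
    unfold kap
    ring
  rw [e3]
  exact double_pos hs hl0 hl2 hv

end Pool.Agent.TH136.AT
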