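import Mathlib

set_option autoImplicit false

namespace Pool.Agent.TH136.AT

open MeasureTheory Real Set

/-- Chebyshev's inequality with a weight, for functions that vary together -/
theorem cheb {w f g : ℝ → ℝ} (hw : ∀ x, 0 ≤ w x) (Iw : Integrable w)
    (If : Integrable (fun x => w x * f x)) (Ig : Integrable (fun x => w x * g x))
    (Ifg : Integrable (fun x => w x * f x * g x))
    (h : ∀ x y, 0 ≤ (f x - f y) * (g x - g y)) :
    (∫ x, w x * f x) * (∫ x, w x * g x) ≤ (∫ x, w x * f x * g x) * (∫ x, w x) := by
  set W := ∫ x, w x with hW
  set F := ∫ x, w x * f x with hF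
  set G := ∫ x, w x * g x with hG
  set H := ∫ x, w x * f x * g x with hH
  have inner : ∀ x, ∫ y, (w x * w y) * ((f x - f y) * (g x - g y)) =
      w x * f x * g x * W - w x * f x * G - w x * g x * F + w x * H := by
    intro x
    have e : (fun y => (w x * w y) * ((f x - f y) * (g x - g y))) =
        fun y => (w x * f x * g x) * w y - (w x * f x) * (w y * g y) - (w x * g x) * (w y * f y)
          + w x * (w y * f y * g y) := by
      funext y; ring
    rw [e, integral_add, integral_sub, integral_sub, integral_const_mul, integral_const_mul,
      integral_const_mul, integral_const_mul]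
    · exact Iw.const_mul _
    · exact Ig.const_mul _
    · exact (Iw.const_mul _).sub (Ig.const_mul _)
    · exact If.const_mul _
    · exact ((Iw.const_mul _).sub (Ig.const_mul _)).sub (If.const_mul _)
    · exact Ifg.const_mul _
  have pos : 0 ≤ ∫ x, ∫ y, (w x * w y) * ((f x - f y) * (g x - g y)) :=
    integral_nonneg fun x => integral_nonneg fun y =>
      mul_nonneg (mul_nonneg (hw x) (hw y)) (h x y)
  have tot : ∫ x, ∫ y, (w x * w y) * ((f x - f y) * (g x - g y)) =
      H * W - F * G - G * F + W * H := by
    simp_rw [inner]
    rw [integral_add, integral_sub, integral_sub, integral_mul_const, integral_mul_const,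
      integral_mul_const, integral_mul_const]
    · exact Ifg.mul_const _
    · exact If.mul_const _
    · exact (Ifg.mul_const _).sub (If.mul_const _)
    · exact Ig.mul_const _
    · exact ((Ifg.mul_const _).sub (If.mul_const _)).sub (Ig.mul_const _)
    · exact Iw.mul_const _
  rw [tot] at pos
  nlinarith

/-- functions that vary in opposite directions -/
theorem cheb_anti {w f g : ℝ → ℝ} (hw : ∀ x, 0 ≤ w x) (Iw : Integrable w)
    (If : Integrable (fun x => w x * f x)) (Ig : Integrable (fun x => w x * g x))
    (Ifg : Integrable (fun x => w x * f x * g x))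
    (h : ∀ x y, (f x - f y) * (g x - g y) ≤ 0) :
    (∫ x, w x * f x * g x) * (∫ x, w x) ≤ (∫ x, w x * f x) * (∫ x, w x * g x) := by
  have := cheb (w := w) (f := f) (g := fun x => - g x) hw Iw If
    (by simpa using Ig.neg) (by simpa using Ifg.neg) (fun x y => by
      have := h x y
      nlinarith)
  have e1 : ∫ x, w x * -g x = -∫ x, w x * g x := by
    rw [← integral_neg]; congr 1; funext x; ring
  have e2 : ∫ x, w x * f x * -g x = -∫ x, w x * f x * g x := by
    rw [← integral_neg]; congr 1; funext x; ring
  rw [e1, e2] at this
  nlinarith

end Pool.Agent.TH136.AT
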